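import Pool.Agent.LibBcast.Final

/-!
A connected graph on 19 vertices with a unique ir_b-broadcast, of the form of the question with
`r = 3`, and with broadcast number different from five quarters of the irredundance number.
-/

namespace Pool.Agent.Results.MP_08edbb_co.UniqueOdd

open Pool.Agent.LibBcast

/-- A dominating broadcast of minimum cost is maximal irredundant. -/
theorem maximal_of_min {V : Type} [Fintype V] [DecidableEq V] (G : SimpleGraph V) {f : V → ℕ}
    (hf : Dominating G f) (hmin : ∀ g, Dominating G g → cost f ≤ cost g) :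
    MaximalIrredundant G f := by
  refine ⟨⟨hf.1, ?_⟩, ?_⟩
  · intro v hv
    by_contra hne
    rw [Set.not_nonempty_iff_eq_empty] at hne
    have hdom : Dominating G (Function.update f v (f v - 1)) := by
      refine ⟨?_, ?_⟩
      · intro w
        by_cases hw : w = v
        · subst hw
          rw [Function.update_self]
          have := hf.1 w
          omega
        · rw [Function.update_of_ne hw]
          exact hf.1 w
      · intro u
        by_cases hu : G.dist u v ≤ f v
        · by_contra hc
          push Not at hc
          have : u ∈ PB G f v := ⟨hu, hc⟩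
          rw [hne] at this
          exact this
        · obtain ⟨w, hw⟩ := hf.2 u
          refine ⟨w, ?_⟩
          have hwv : w ≠ v := by
            rintro rfl
            exact hu hw.2
          unfold Hears
          rw [Function.update_of_ne hwv]
          exact hw
    have h1 := hmin _ hdom
    have h2 : cost (Function.update f v (f v - 1)) < cost f := by
      unfold cost
      apply Finset.sum_lt_sum
      · intro w _
        by_cases hw : w = v
        · subst hw
          rw [Function.update_self]
          omega
        · rw [Function.update_of_ne hw]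
      · refine ⟨v, Finset.mem_univ v, ?_⟩
        rw [Function.update_self]
        omega
    omega
  · intro g _ hge hne hg
    obtain ⟨v, hv⟩ : ∃ v, g v ≠ f v := by
      by_contra hc
      push Not at hc
      exact hne (funext hc)
    have hlt : f v < g v := lt_of_le_of_ne (hge v) (Ne.symm hv)
    obtain ⟨u, hu⟩ := hg.2 v (by omega)
    obtain ⟨w, hw⟩ := hf.2 u
    apply hu.2 w
    unfold Hears at hw ⊢
    by_cases hwv : w = v
    · subst hwv
      rw [Function.update_self]
      omega
    · rw [Function.update_of_ne hwv]
      have := hge w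
      omega

/-- A dominating broadcast of cost seven. -/
def f7 (v : Fin 19) : ℕ := if v = 5 then 7 else 0

theorem f7_dom : Dominating theG f7 := by
  refine ⟨?_, ?_⟩
  · rw [isBroadcast_iff]
    decide +kernel
  · intro u
    refine ⟨5, by decide, ?_⟩
    rw [dist_eq]
    have : ∀ u : Fin 19, dd u (5 : Fin 19) ≤ f7 5 := by decide +kernel
    exact this u

theorem f7_cost : cost f7 = 7 := by
  unfold cost
  decide +kernel

theorem ft_not_dom : ¬ Dominating theG ft := by
  intro h
  obtain ⟨v, h1, h2⟩ := h.2 14
  rw [dist_eq] at h2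
  have : ∀ v : Fin 19, 0 < ft v → ¬ dd (14 : Fin 19) v ≤ ft v := by decide +kernel
  exact this v h1 h2

theorem gammaB_eq : gammaB theG = 7 := by
  unfold gammaB
  have hne : {c | ∃ f, Dominating theG f ∧ cost f = c}.Nonempty := ⟨7, f7, f7_dom, f7_cost⟩
  apply le_antisymm
  · exact Nat.sInf_le ⟨f7, f7_dom, f7_cost⟩
  · obtain ⟨f, h1, h2⟩ := Nat.sInf_mem hne
    by_contra hc
    push Not at hc
    have hmin : ∀ g, Dominating theG g → cost f ≤ cost g := by
      intro g hg
      rw [h2]
      exact Nat.sInf_le ⟨g, hg, rfl⟩
    have : f = ft := unique_ft (maximal_of_min theG h1 hmin) (by omega)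
    rw [this] at h1
    exact ft_not_dom h1

/-- The six vertices of the broadcast, in pairs. -/
def em (p : Fin 3 × Fin 2) : Fin 19 :=
  ![![3, 1], ![2, 5], ![0, 6]] p.1 p.2

theorem em_pos : ∀ p, 0 < ft (em p) := by decide +kernel

theorem em_inj : Function.Injective em := by decide +kernel

theorem em_surj : ∀ v : Fin 19, 0 < ft v → ∃ p, em p = v := by decide +kernel

theorem em_adj : ∀ p q : Fin 3 × Fin 2, dd (em p) (em q) = 1 ↔ (p.1 = q.1 ∧ p.2 ≠ q.2) := by
  decide +kernel

theorem iso_ft : Nonempty (theG.induce {v | 0 < ft v} ≃g rK2 3) := by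
  let φ : Fin 3 × Fin 2 → {v | 0 < ft v} := fun p => ⟨em p, em_pos p⟩
  have hb : Function.Bijective φ := by
    constructor
    · intro p q h
      exact em_inj (congrArg Subtype.val h)
    · rintro ⟨v, hv⟩
      obtain ⟨p, hp⟩ := em_surj v hv
      exact ⟨p, Subtype.ext hp⟩
  let e : rK2 3 ≃g theG.induce {v | 0 < ft v} :=
    { toEquiv := Equiv.ofBijective φ hb
      map_rel_iff' := by
        intro p q
        exact em_adj p q }
  exact ⟨e.symm⟩

theorem result : ∃ G : SimpleGraph (Fin 19), G.Connected ∧ irB G = 6 ∧ gammaB G = 7 ∧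
    (gammaB G : ℚ) ≠ 5 / 4 * irB G ∧ (∃! f, IrbBroadcast G f) ∧
    ∀ f, IrbBroadcast G f →
      (∀ v, 0 < f v → f v = 1) ∧ Nonempty (G.induce {v | 0 < f v} ≃g rK2 3) := by
  refine ⟨theG, theG_connected, irB_eq, gammaB_eq, ?_, ?_, ?_⟩
  · rw [gammaB_eq, irB_eq]
    norm_num
  · exact ⟨ft, (irb_iff ft).2 rfl, fun f hf => (irb_iff f).1 hf⟩
  · intro f hf
    rw [(irb_iff f).1 hf]
    refine ⟨?_, iso_ft⟩
    decide +kernel

end Pool.Agent.Results.MP_08edbb_co.UniqueOdd
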